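import Pool.Agent.helper56.CY.Spec

/-!
# Row cy:SHT (MP_45d809_mp): there is a short colour class
-/

namespace Pool.Agent.CY
open Finset CT

theorem SHT : SHT_stmt := by
  intro V _ S c hH hcase
  by_contra hcon
  push Not at hcon
  obtain ⟨_, _, h3⟩ := hH
  obtain ⟨s, hs⟩ : ∃ s, s = (dts S).filter fun d => c d ≠ 0 := ⟨_, rfl⟩
  have himg : s.image c = ((dts S).image c).erase 0 := by
    ext m
    rw [hs, Finset.mem_image, Finset.mem_erase, Finset.mem_image]
    constructor
    · rintro ⟨d, hd, rfl⟩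
      rw [Finset.mem_filter] at hd
      exact ⟨hd.2, d, hd.1, rfl⟩
    · rintro ⟨h0, d, hd, rfl⟩
      exact ⟨d, Finset.mem_filter.2 ⟨hd, h0⟩, rfl⟩
  have h8 : 8 * (s.image c).card ≤ s.card := by
    refine Finset.mul_card_image_le_card s 8 ?_
    intro b hb
    rw [himg, Finset.mem_erase, Finset.mem_image] at hb
    obtain ⟨hb0, d, hd, hdb⟩ := hb
    have h4 := hcon b hb0 ⟨d, hd, hdb⟩
    have h5 : ((dts S).filter fun d => c d = b) ⊆ s.filter fun a => c a = b := by
      intro x hx
      rw [Finset.mem_filter] at hx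
      rw [Finset.mem_filter, hs, Finset.mem_filter]
      exact ⟨⟨hx.1, by rw [hx.2]; exact hb0⟩, hx.2⟩
    have h6 := Finset.card_le_card h5
    omega
  have hnb : (s.image c).card = nb S c := by rw [himg]; rfl
  rw [hnb] at h8
  have hsub : s ⊆ dts (Wt S c) := by
    intro d hd
    rw [hs, Finset.mem_filter] at hd
    obtain ⟨hd1, hd2⟩ := hd
    unfold dts at hd1 ⊢
    rw [Finset.mem_product] at hd1 ⊢
    refine ⟨?_, Finset.mem_univ _⟩
    unfold Wt
    rw [Finset.mem_filter]
    exact ⟨hd1.1, d.2, hd2⟩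
  have hcard : (dts (Wt S c)).card = 4 * (Wt S c).card := by
    unfold dts
    rw [Finset.card_product, Finset.card_univ, Fintype.card_fin, Nat.mul_comm]
  rcases hcase with hW | ⟨d, hd, hdW, hd0⟩
  · rw [if_pos hW] at h3
    have h7 := Finset.card_le_card hsub
    rw [hcard] at h7
    omega
  · have h7 : s ⊂ dts (Wt S c) := by
      rw [Finset.ssubset_iff_of_subset hsub]
      refine ⟨d, ?_, ?_⟩
      · unfold dts
        rw [Finset.mem_product]
        exact ⟨hdW, Finset.mem_univ _⟩
      · rw [hs, Finset.mem_filter]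
        exact fun h => h.2 hd0
    have h8' := Finset.card_lt_card h7
    rw [hcard] at h8'
    omega

end Pool.Agent.CY
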